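import Pool.Agent.Lib_helper43.Dyn.Defs

set_option autoImplicit false

/-!
# The uniform boundedness step: large fluxes along a sequence of times give `0 < Γ(ψ)`
-/

namespace Pool.Agent.Lib_helper71.Dyn

open MeasureTheory Filter Topology Set
open scoped ENNReal ContDiff InnerProductSpace
open Pool.Agent.Lib_helper43.Dyn

noncomputable section

/-- Lebesgue measure on the unit cube. -/
abbrev mu : Measure R3 := volume.restrict cube

lemma cube_eq : cube = Set.pi univ (fun _ : Fin 3 => Ico (0 : ℝ) 1) := by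
  ext x
  simp [cube, Set.mem_pi]

lemma measurableSet_cube : MeasurableSet cube := by
  rw [cube_eq]
  exact MeasurableSet.univ_pi fun _ => measurableSet_Ico

lemma volume_cube : (volume : Measure R3) cube = 1 := by
  rw [cube_eq, Real.volume_pi_Ico]
  simp

instance : IsFiniteMeasure mu := by
  constructor
  rw [Measure.restrict_apply_univ, volume_cube]
  exact ENNReal.one_lt_top

/-- Fractional parts of the coordinates. -/
def fr (x : R3) : R3 := fun i => Int.fract (x i)

lemma measurable_fr : Measurable fr :=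
  measurable_pi_lambda _ fun i => (measurable_pi_apply i).fract

lemma fr_of_mem {x : R3} (hx : x ∈ cube) : fr x = x := by
  funext i
  exact Int.fract_eq_self.mpr (hx i)

lemma sq_lintegral_le {v : R3 → R3} (i : Fin 3) :
    ∫⁻ x, ‖v x i‖ₑ ^ (2 : ℝ) ∂mu ≤ normSq v := by
  unfold normSq
  refine lintegral_mono fun x => ?_
  have h1 : ‖v x i‖ₑ ^ (2 : ℝ) = ENNReal.ofReal (v x i ^ 2) := by
    rw [← ofReal_norm, ENNReal.ofReal_rpow_of_nonneg (norm_nonneg _) (by norm_num)]
    congr 1
    rw [Real.norm_eq_abs]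
    norm_num
  rw [h1]
  refine ENNReal.ofReal_le_ofReal ?_
  exact Finset.single_le_sum (f := fun j => v x j ^ 2) (fun j _ => sq_nonneg _) (Finset.mem_univ i)

lemma memLp_comp {v : R3 → R3} (hv : IsL2 v) (i : Fin 3) : MemLp (fun x => v x i) 2 mu := by
  refine ⟨((measurable_pi_apply i).comp hv.1).aestronglyMeasurable, ?_⟩
  rw [eLpNorm_lt_top_iff_lintegral_rpow_enorm_lt_top two_ne_zero ENNReal.ofNat_ne_top]
  have h := sq_lintegral_le (v := v) i
  exact lt_of_le_of_lt (by simpa using h) hv.2.2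

lemma eLpNorm_comp_le {v : R3 → R3} (h1 : normSq v ≤ 1) (i : Fin 3) :
    eLpNorm (fun x => v x i) 2 mu ≤ 1 := by
  rw [eLpNorm_eq_lintegral_rpow_enorm_toReal two_ne_zero ENNReal.ofNat_ne_top]
  have h := (sq_lintegral_le (v := v) i).trans h1
  have h2 : ((2 : ℝ≥0∞)).toReal = (2 : ℝ) := by simp
  rw [h2]
  exact ENNReal.rpow_le_one h (by norm_num)

lemma memLp_bdd {f : R3 → ℝ} (hf : Measurable f) {M : ℝ} (hM : ∀ x, |f x| ≤ M) :
    MemLp f 2 mu :=
  MemLp.of_bound hf.aestronglyMeasurable M (Eventually.of_forall fun x => by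
    simpa [Real.norm_eq_abs] using hM x)

/-- The space of triples of `L²` functions on the cube. -/
abbrev X := Fin 3 → Lp ℝ 2 mu

/-- Integration against a triple of `L²` functions. -/
def pair (w : Fin 3 → Lp ℝ 2 mu) : X →L[ℝ] ℝ :=
  ∑ i, (innerSL ℝ (w i)).comp (ContinuousLinearMap.proj i)

lemma inner_eq {f g : R3 → ℝ} (hf : MemLp f 2 mu) (hg : MemLp g 2 mu) :
    ⟪hf.toLp f, hg.toLp g⟫_ℝ = ∫ x in cube, f x * g x := by
  rw [L2.inner_def]
  refine integral_congr_ae ?_
  filter_upwards [hf.coeFn_toLp, hg.coeFn_toLp] with x h1 h2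
  rw [h1, h2]
  simp [mul_comm]

lemma pair_apply {w v : Fin 3 → R3 → ℝ} (hw : ∀ i, MemLp (w i) 2 mu)
    (hv : ∀ i, MemLp (v i) 2 mu) :
    pair (fun i => (hw i).toLp (w i)) (fun i => (hv i).toLp (v i)) =
      ∫ x in cube, ∑ i, w i x * v i x := by
  rw [integral_finsetSum]
  · simp only [pair, ContinuousLinearMap.sum_apply, ContinuousLinearMap.comp_apply,
      ContinuousLinearMap.proj_apply, innerSL_apply_apply]
    exact Finset.sum_congr rfl fun i _ => inner_eq (hw i) (hv i)
  · intro i _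
    exact (hw i).integrable_mul (hv i)

/-- The phase `2π k·x`. -/
def phase (k : Fin 3 → ℤ) (x : R3) : ℝ := 2 * Real.pi * ∑ i, (k i : ℝ) * x i

lemma measurable_phase (k : Fin 3 → ℤ) : Measurable (phase k) := by
  unfold phase
  fun_prop

lemma memLp_cos (k : Fin 3 → ℤ) : MemLp (fun x => Real.cos (phase k x)) 2 mu :=
  memLp_bdd (Real.measurable_cos.comp (measurable_phase k)) (M := 1) fun _ => Real.abs_cos_le_one _

lemma memLp_sin (k : Fin 3 → ℤ) : MemLp (fun x => Real.sin (phase k x)) 2 mu :=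
  memLp_bdd (Real.measurable_sin.comp (measurable_phase k)) (M := 1) fun _ => Real.abs_sin_le_one _

lemma fc_eq {f : R3 → ℝ} (hf : MemLp f 2 mu) (k : Fin 3 → ℤ) :
    fc f k = ((∫ x in cube, Real.cos (phase k x) * f x : ℝ) : ℂ) -
      ((∫ x in cube, Real.sin (phase k x) * f x : ℝ) : ℂ) * Complex.I := by
  have hc : Integrable (fun x => Real.cos (phase k x) * f x) mu := (memLp_cos k).integrable_mul hf
  have hs : Integrable (fun x => Real.sin (phase k x) * f x) mu := (memLp_sin k).integrable_mul hf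
  rw [← integral_complex_ofReal, ← integral_complex_ofReal, ← integral_mul_const,
    ← integral_sub hc.ofReal (hs.ofReal.mul_const _)]
  unfold fc
  refine integral_congr_ae (Eventually.of_forall fun x => ?_)
  have h1 : -(2 * Real.pi * Complex.I * ∑ i, (k i : ℂ) * (x i : ℂ)) =
      ((-(phase k x) : ℝ) : ℂ) * Complex.I := by
    unfold phase
    push_cast
    ring
  simp only [h1]
  rw [Complex.exp_mul_I, ← Complex.ofReal_cos, ← Complex.ofReal_sin, Real.cos_neg, Real.sin_neg]
  push_cast
  ring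

/-- The closed subspace of divergence-free triples. -/
def S : Submodule ℝ X :=
  ⨅ k : Fin 3 → ℤ,
    (LinearMap.ker (pair fun i => ((k i : ℝ)) • (memLp_cos k).toLp _).toLinearMap ⊓
      LinearMap.ker (pair fun i => ((k i : ℝ)) • (memLp_sin k).toLp _).toLinearMap)

lemma isClosed_S : IsClosed (S : Set X) := by
  have h : (S : Set X) = ⋂ k : Fin 3 → ℤ,
      ({f | pair (fun i => ((k i : ℝ)) • (memLp_cos k).toLp _) f = 0} ∩
        {f | pair (fun i => ((k i : ℝ)) • (memLp_sin k).toLp _) f = 0}) := by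
    ext f
    simp [S]
  rw [h]
  refine isClosed_iInter fun k => ?_
  exact (isClosed_eq (ContinuousLinearMap.continuous _) continuous_const).inter
    (isClosed_eq (ContinuousLinearMap.continuous _) continuous_const)

instance : CompleteSpace S := isClosed_S.completeSpace_coe

lemma pair_smul_cos {v : Fin 3 → R3 → ℝ} (hv : ∀ i, MemLp (v i) 2 mu) (k : Fin 3 → ℤ)
    {g : R3 → ℝ} (hg : MemLp g 2 mu) :
    pair (fun i => ((k i : ℝ)) • hg.toLp g) (fun i => (hv i).toLp (v i)) =
      ∑ i, (k i : ℝ) * ∫ x in cube, g x * v i x := by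
  simp only [pair, ContinuousLinearMap.sum_apply, ContinuousLinearMap.comp_apply,
      ContinuousLinearMap.proj_apply, innerSL_apply_apply, inner_smul_left]
  refine Finset.sum_congr rfl fun i _ => ?_
  rw [inner_eq hg (hv i)]
  simp

lemma sum_fc {v : Fin 3 → R3 → ℝ} (hv : ∀ i, MemLp (v i) 2 mu) (k : Fin 3 → ℤ) :
    ∑ i, (k i : ℂ) * fc (v i) k =
      ((∑ i, (k i : ℝ) * ∫ x in cube, Real.cos (phase k x) * v i x : ℝ) : ℂ) -
      ((∑ i, (k i : ℝ) * ∫ x in cube, Real.sin (phase k x) * v i x : ℝ) : ℂ) * Complex.I := by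
  push_cast
  rw [Finset.sum_mul, ← Finset.sum_sub_distrib]
  refine Finset.sum_congr rfl fun i _ => ?_
  rw [fc_eq (hv i) k]
  push_cast
  ring

lemma mem_S_iff {v : Fin 3 → R3 → ℝ} (hv : ∀ i, MemLp (v i) 2 mu) :
    ((fun i => (hv i).toLp (v i)) : X) ∈ S ↔ ∀ k : Fin 3 → ℤ, ∑ i, (k i : ℂ) * fc (v i) k = 0 := by
  simp only [S, Submodule.mem_iInf, Submodule.mem_inf, LinearMap.mem_ker,
    ContinuousLinearMap.coe_coe]
  refine forall_congr' fun k => ?_
  rw [pair_smul_cos hv k (memLp_cos k), pair_smul_cos hv k (memLp_sin k), sum_fc hv k]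
  constructor
  · rintro ⟨h1, h2⟩
    rw [h1, h2]
    simp
  · intro h
    have hre := congrArg Complex.re h
    have him := congrArg Complex.im h
    simp only [Complex.sub_re, Complex.mul_re, Complex.ofReal_re, Complex.I_re, mul_zero,
      Complex.ofReal_im, Complex.I_im, mul_one, sub_zero, Complex.zero_re, Complex.sub_im,
      Complex.mul_im, add_zero, zero_sub, Complex.zero_im, neg_eq_zero, zero_mul] at hre him
    exact ⟨by simpa using hre, by simpa using him⟩

/-- The periodic vector field attached to a triple of `L²` functions. -/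
def field (f : X) (x : R3) : R3 := fun i => f i (fr x)

lemma field_memLp (f : X) (i : Fin 3) : MemLp (fun x => field f x i) 2 mu := by
  refine (Lp.memLp (f i)).ae_eq ?_
  refine (ae_restrict_iff' measurableSet_cube).mpr (Eventually.of_forall fun x hx => ?_)
  simp [field, fr_of_mem hx]

lemma field_toLp (f : X) : (fun i => (field_memLp f i).toLp (fun x => field f x i)) = f := by
  funext i
  refine Lp.ext ?_
  filter_upwards [(field_memLp f i).coeFn_toLp,
    (ae_restrict_iff' measurableSet_cube).mpr (Eventually.of_forall fun x hx => fr_of_mem hx)]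
    with x h1 h2
  rw [h1]
  simp only [field, h2]

lemma measurable_field (f : X) : Measurable (field f) := by
  refine measurable_pi_lambda _ fun i => ?_
  exact (Lp.stronglyMeasurable (f i)).measurable.comp measurable_fr

lemma periodic_field (f : X) : Periodic3 (field f) := by
  intro x k
  funext i
  simp only [field]
  congr 1
  funext j
  simp [fr]

lemma isL2_field (f : X) : IsL2 (field f) := by
  refine ⟨measurable_field f, periodic_field f, ?_⟩
  unfold normSq
  have h : ∀ x, ENNReal.ofReal (∑ i, field f x i ^ 2) = ∑ i, ‖field f x i‖ₑ ^ (2 : ℝ) := by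
    intro x
    rw [ENNReal.ofReal_sum_of_nonneg fun i _ => sq_nonneg _]
    refine Finset.sum_congr rfl fun i _ => ?_
    rw [← ofReal_norm, ENNReal.ofReal_rpow_of_nonneg (norm_nonneg _) (by norm_num)]
    congr 1
    rw [Real.norm_eq_abs]
    norm_num
  simp only [h]
  rw [lintegral_finsetSum]
  · refine ENNReal.sum_lt_top.mpr fun i _ => ?_
    have h3 := (field_memLp f i).2
    rw [eLpNorm_lt_top_iff_lintegral_rpow_enorm_lt_top two_ne_zero ENNReal.ofNat_ne_top] at h3
    simpa using h3
  · intro i _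
    exact ((measurable_pi_apply i).comp (measurable_field f)).enorm.pow_const _

/-- Uniform boundedness: large fluxes along a sequence of times give one initial field whose flux
grows exponentially. -/
theorem gamma_pos {Φ : ℝ → R3 ≃ R3} {ψ : R3 → R3} {γ : ℝ} (hγ : 0 < γ)
    (hW : ∀ t, 0 ≤ t → ∃ W : R3 → R3, Measurable W ∧ (∃ M, ∀ x i, |W x i| ≤ M) ∧
      ∀ Bin, IsL2 Bin → flux Φ Bin ψ t = ∫ x in cube, ∑ i, W x i * Bin x i)
    (hlarge : ∀ T : ℝ, ∃ t, T ≤ t ∧ ∃ Bin, IsL2 Bin ∧ DivFree Bin ∧ normSq Bin ≤ 1 ∧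
      Real.exp (γ * t) ≤ |flux Φ Bin ψ t|) : 0 < Gamma Φ ψ := by
  by_contra hcon
  choose t ht Bn hBn using fun n : ℕ => hlarge (n : ℝ)
  have ht0 : ∀ n, 0 ≤ t n := fun n => (Nat.cast_nonneg n).trans (ht n)
  choose W hWm hWb hWf using fun n => hW (t n) (ht0 n)
  have hWL : ∀ n i, MemLp (fun x => W n x i) 2 mu := by
    intro n i
    obtain ⟨M, hM⟩ := hWb n
    exact memLp_bdd ((measurable_pi_apply i).comp (hWm n)) (fun x => hM x i)
  let F : ℕ → X →L[ℝ] ℝ := fun n => pair fun i => (hWL n i).toLp _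
  have hF : ∀ n (v : R3 → R3) (hv : IsL2 v),
      F n (fun i => (memLp_comp hv i).toLp _) = flux Φ v ψ (t n) := by
    intro n v hv
    rw [hWf n v hv]
    exact pair_apply (w := fun i x => W n x i) (v := fun i x => v x i) (hWL n) (memLp_comp hv)
  let G : ℕ → S →L[ℝ] ℝ := fun n =>
    Real.exp (-(γ / 2 * t n)) • ((F n).comp S.subtypeL)
  -- pointwise boundedness
  have hbdd : ∀ f : S, ∃ C, ∀ n, ‖G n f‖ ≤ C := by
    intro f
    have hdiv : DivFree (field (f : X)) := by
      have h1 := (mem_S_iff (v := fun i x => field (f : X) x i) (field_memLp (f : X))).mp (by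
        rw [field_toLp]
        exact f.2)
      exact h1
    have hlim : limsup (fun s : ℝ => ENNReal.log ‖flux Φ (field (f : X)) ψ s‖ₑ / (s : EReal))
        atTop ≤ 0 := by
      by_contra hlt
      refine hcon (lt_of_lt_of_le (not_le.mp hlt) ?_)
      unfold Gamma
      exact le_iSup₂_of_le (field (f : X)) ⟨isL2_field _, hdiv⟩ le_rfl
    have hev : ∀ᶠ s : ℝ in atTop,
        ENNReal.log ‖flux Φ (field (f : X)) ψ s‖ₑ / (s : EReal) < ((γ / 2 : ℝ) : EReal) := by
      refine Filter.eventually_lt_of_limsup_lt (lt_of_le_of_lt hlim ?_)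
      exact_mod_cast half_pos hγ
    have hev2 : ∀ᶠ s : ℝ in atTop, |flux Φ (field (f : X)) ψ s| ≤ Real.exp (γ / 2 * s) := by
      filter_upwards [hev, eventually_gt_atTop 0] with s hs hs0
      have h1 : ENNReal.log ‖flux Φ (field (f : X)) ψ s‖ₑ < ((γ / 2 * s : ℝ) : EReal) := by
        have h2 := (EReal.div_lt_iff (by exact_mod_cast hs0) (EReal.coe_ne_top s)).mp hs
        rw [EReal.coe_mul]
        exact h2
      by_contra hlt
      rw [not_le] at hlt
      refine absurd h1 (not_lt.mpr ?_)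
      have h3 : ((γ / 2 * s : ℝ) : EReal) = ENNReal.log (ENNReal.ofReal (Real.exp (γ / 2 * s))) := by
        rw [ENNReal.log_ofReal_of_pos (Real.exp_pos _), Real.log_exp]
      rw [h3]
      refine ENNReal.log_monotone ?_
      rw [← ofReal_norm, Real.norm_eq_abs]
      exact ENNReal.ofReal_le_ofReal hlt.le
    obtain ⟨s0, hs0⟩ := eventually_atTop.mp hev2
    obtain ⟨N, hN⟩ := exists_nat_ge s0
    have hGf : ∀ n, G n f = Real.exp (-(γ / 2 * t n)) * flux Φ (field (f : X)) ψ (t n) := by
      intro n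
      have h1 := hF n (field (f : X)) (isL2_field _)
      have h2 : (fun i => (memLp_comp (isL2_field (f : X)) i).toLp (fun x => field (f : X) x i)) =
          (f : X) := field_toLp (f : X)
      rw [h2] at h1
      rw [← h1]
      rfl
    refine ⟨1 + ∑ n ∈ Finset.range N, ‖G n f‖, fun n => ?_⟩
    have hsum : 0 ≤ ∑ n ∈ Finset.range N, ‖G n f‖ := Finset.sum_nonneg fun _ _ => norm_nonneg _
    by_cases hn : n < N
    · have := Finset.single_le_sum (f := fun n => ‖G n f‖) (fun n _ => norm_nonneg _)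
        (Finset.mem_range.mpr hn)
      linarith
    · have h1 : s0 ≤ t n := hN.trans ((Nat.cast_le.mpr (not_lt.mp hn)).trans (ht n))
      have h2 := hs0 (t n) h1
      have h3 : ‖G n f‖ ≤ 1 := by
        rw [hGf n, norm_mul, Real.norm_eq_abs, Real.norm_eq_abs, abs_of_pos (Real.exp_pos _)]
        calc Real.exp (-(γ / 2 * t n)) * |flux Φ (field (f : X)) ψ (t n)|
            ≤ Real.exp (-(γ / 2 * t n)) * Real.exp (γ / 2 * t n) :=
              mul_le_mul_of_nonneg_left h2 (Real.exp_pos _).le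
          _ = 1 := by rw [← Real.exp_add]; simp
      linarith
  obtain ⟨C, hC⟩ := banach_steinhaus hbdd
  -- the fields `Bn n` have norm at most one and large image
  have hbig : ∀ n, Real.exp (γ / 2 * t n) ≤ C := by
    intro n
    obtain ⟨hL2, hdf, hn1, hfl⟩ := hBn n
    have hmem : ((fun i => (memLp_comp hL2 i).toLp (fun x => Bn n x i)) : X) ∈ S :=
      (mem_S_iff (v := fun i x => Bn n x i) (memLp_comp hL2)).mpr hdf
    let b : S := ⟨_, hmem⟩
    have hb1 : ‖b‖ ≤ 1 := by
      change ‖((fun i => (memLp_comp hL2 i).toLp (fun x => Bn n x i)) : X)‖ ≤ 1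
      refine (pi_norm_le_iff_of_nonneg zero_le_one).mpr fun i => ?_
      rw [Lp.norm_toLp]
      exact ENNReal.toReal_le_of_le_ofReal zero_le_one (by
        simpa using eLpNorm_comp_le hn1 i)
    have hGb : G n b = Real.exp (-(γ / 2 * t n)) * flux Φ (Bn n) ψ (t n) := by
      rw [← hF n (Bn n) hL2]
      rfl
    have h1 : ‖G n b‖ ≤ C := by
      calc ‖G n b‖ ≤ ‖G n‖ * ‖b‖ := (G n).le_opNorm b
        _ ≤ C * 1 := by
            refine mul_le_mul (hC n) hb1 (norm_nonneg _) ((norm_nonneg _).trans (hC n))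
        _ = C := mul_one C
    refine le_trans ?_ h1
    rw [hGb, norm_mul, Real.norm_eq_abs, Real.norm_eq_abs, abs_of_pos (Real.exp_pos _)]
    calc Real.exp (γ / 2 * t n) = Real.exp (-(γ / 2 * t n)) * Real.exp (γ * t n) := by
          rw [← Real.exp_add]; congr 1; ring
      _ ≤ _ := mul_le_mul_of_nonneg_left hfl (Real.exp_pos _).le
  have hCpos : 0 < C := (Real.exp_pos _).trans_le (hbig 0)
  obtain ⟨n, hn⟩ := exists_nat_gt (Real.log C / (γ / 2))
  have h1 : Real.log C < γ / 2 * t n := by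
    have h2 : Real.log C / (γ / 2) < t n := hn.trans_le (ht n)
    rwa [div_lt_iff₀ (half_pos hγ), mul_comm] at h2
  have h3 := hbig n
  have h4 : γ / 2 * t n ≤ Real.log C := by
    rw [← Real.log_exp (γ / 2 * t n)]
    exact Real.log_le_log (Real.exp_pos _) h3
  linarith

end

end Pool.Agent.Lib_helper71.Dyn
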